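import Pool.Agent.helper48.AN.SpecD

namespace AN

open scoped Classical
open MvPowerSeries (constantCoeff coeff)

noncomputable section

theorem DD_hD0 {R : Type} [CommRing R] (f : LS R) : hD 0 f = f := by
  ext n
  show ((Ring.choose (n + (0 : ℕ)) 0 : ℤ) : R) * cf f (n + (0 : ℕ)) = cf f n
  rw [Ring.choose_zero_right]
  simp

theorem DD_hDz {R : Type} [CommRing R] (j : ℕ) : hD j (0 : LS R) = 0 := by
  ext n
  show ((Ring.choose (n + (j : ℕ)) j : ℤ) : R) * cf (0 : LS R) (n + (j : ℕ)) = cf 0 n
  rw [cf_zero, cf_zero, mul_zero]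

theorem DD_sum {M : Type} [AddCommMonoid M] {N : ℕ} (α : Fin N →₀ ℕ)
    (G : (Fin N →₀ ℕ) × (Fin N →₀ ℕ) → M)
    (h : ∀ q : (Fin N →₀ ℕ) × (Fin N →₀ ℕ), q.1.degree < α.degree → G q = 0) :
    ∑ q ∈ Finset.HasAntidiagonal.antidiagonal α, G q = G (α, 0) := by
  refine Finset.sum_eq_single (α, 0) ?_ ?_
  · intro q hq hne
    rw [Finset.HasAntidiagonal.mem_antidiagonal] at hq
    apply h
    rw [← hq, map_add]
    have : q.2 ≠ 0 := by
      intro h0
      apply hne
      rw [h0, add_zero] at hq
      exact Prod.ext hq h0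
    have h2 : q.2.degree ≠ 0 := by
      intro h0
      exact this ((Finsupp.degree_eq_zero_iff _).1 h0)
    omega
  · intro hn
    exact absurd (by rw [Finset.HasAntidiagonal.mem_antidiagonal, add_zero]) hn

theorem DD : DD_stmt := by
  intro k _ N h
  constructor
  · intro n x hx α hα
    show (∑ q ∈ Finset.HasAntidiagonal.antidiagonal α, ∑ j ∈ Finset.range (q.2.degree + 1),
      hD j (coeff q.1 x) * coeff q.2 (del h ^ j)) = coeff α x
    rw [DD_sum α (fun q => ∑ j ∈ Finset.range (q.2.degree + 1),
      hD j (coeff q.1 x) * coeff q.2 (del h ^ j))]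
    · show (∑ j ∈ Finset.range ((0 : Fin N →₀ ℕ).degree + 1),
        hD j (coeff α x) * coeff (0 : Fin N →₀ ℕ) (del h ^ j)) = coeff α x
      rw [map_zero, zero_add, Finset.sum_range_one, DD_hD0, pow_zero,
        MvPowerSeries.coeff_zero_one, mul_one]
    · intro q hq
      refine Finset.sum_eq_zero fun j _ => ?_
      rw [hx q.1 (by omega), DD_hDz, zero_mul]
  · have hc : constantCoeff (σ := Fin N) (R := LS k) (1 + ddK (del h)) = 1 := by
      rw [map_add, map_one]
      have : constantCoeff (σ := Fin N) (R := LS k) (ddK (del h)) =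
          dd (constantCoeff (σ := Fin N) (R := LS k) (del h)) := rfl
      rw [this]
      have h0 : constantCoeff (σ := Fin N) (R := LS k) (del h) = 0 := by
        unfold del
        rw [map_sum]
        refine Finset.sum_eq_zero fun i _ => ?_
        rw [map_mul, MvPowerSeries.constantCoeff_X, zero_mul]
      rw [h0, map_zero, add_zero]
    have hu : IsUnit (1 + ddK (del h)) := by
      rw [MvPowerSeries.isUnit_iff_constantCoeff, hc]
      exact isUnit_one
    obtain ⟨u, hu⟩ := hu.exists_left_inv
    refine ⟨u, hu, ?_⟩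
    have hu0 : coeff (0 : Fin N →₀ ℕ) u = 1 := by
      have := congrArg (constantCoeff (σ := Fin N) (R := LS k)) hu
      rw [map_mul, hc, map_one, mul_one] at this
      exact this
    intro n x hx α hα
    rw [MvPowerSeries.coeff_mul]
    rw [DD_sum α (fun q => coeff q.1 x * coeff q.2 u)]
    · show coeff α x * coeff 0 u = _
      rw [hu0, mul_one]
    · intro q hq
      show coeff q.1 x * coeff q.2 u = 0
      rw [hx q.1 (by omega), zero_mul]

end

end AN
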