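import Pool.Agent.helper48.AN.SpecF

namespace AN

open scoped Classical
open Pool.Agent.helper53.AU

noncomputable section

/-- the substitution `s ↦ s^n` -/
def FC1_rho (k : Type) [Field k] (n : ℕ) (hn : 0 < n) : LS k →+* LS k :=
  (HahnSeries.embDomainRingHom (R := k) (AddMonoidHom.mulLeft (n : ℤ))
    (fun a b h => by
      have h' : (n : ℤ) * a = n * b := h
      exact mul_left_cancel₀ (by omega) h')
    (fun a b => by
      show (n : ℤ) * a ≤ n * b ↔ a ≤ b
      exact mul_le_mul_iff_right₀ (by omega)) :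
    HahnSeries ℤ k →+* HahnSeries ℤ k)

theorem FC1_cf_rho {k : Type} [Field k] {n : ℕ} (hn : 0 < n) (f : LS k) (m : ℤ) :
    cf (FC1_rho k n hn f) (n * m) = cf f m :=
  HahnSeries.embDomain_coeff (f := ⟨⟨AddMonoidHom.mulLeft (n : ℤ), _⟩, _⟩) (x := f) (a := m)

theorem FC1_cf_rho_ne {k : Type} [Field k] {n : ℕ} (hn : 0 < n) (f : LS k) (m : ℤ)
    (hm : ¬ (n : ℤ) ∣ m) : cf (FC1_rho k n hn f) m = 0 := by
  refine HahnSeries.embDomain_notin_image_support
    (f := ⟨⟨AddMonoidHom.mulLeft (n : ℤ), _⟩, _⟩) (x := f) (b := m) ?_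
  rintro ⟨a, _, rfl⟩
  exact hm ⟨a, rfl⟩

theorem FC1_rho_C {k : Type} [Field k] {n : ℕ} (hn : 0 < n) (c : k) :
    FC1_rho k n hn (LS.C c) = LS.C c := by
  ext m
  by_cases hm : (n : ℤ) ∣ m
  · obtain ⟨q, rfl⟩ := hm
    rw [FC1_cf_rho, cf_C, cf_C]
    by_cases hq : q = 0
    · rw [if_pos hq, if_pos (by rw [hq, mul_zero])]
    · rw [if_neg hq, if_neg]
      intro h0
      rcases mul_eq_zero.1 h0 with h1 | h1
      · omega
      · exact hq h1
  · rw [FC1_cf_rho_ne hn _ _ hm, cf_C, if_neg]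
    rintro rfl
    exact hm (dvd_zero _)

theorem FC1_rho_mono {k : Type} [Field k] {n : ℕ} (hn : 0 < n) (j : ℤ) (c : k) :
    FC1_rho k n hn (mono j c) = mono (n * j) c := by
  ext m
  by_cases hm : (n : ℤ) ∣ m
  · obtain ⟨q, rfl⟩ := hm
    rw [FC1_cf_rho, cf_mono, cf_mono]
    by_cases hq : q = j
    · rw [if_pos hq, if_pos (by rw [hq])]
    · rw [if_neg hq, if_neg]
      intro h0
      exact hq (mul_left_cancel₀ (by omega) h0)
  · rw [FC1_cf_rho_ne hn _ _ hm, cf_mono, if_neg]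
    rintro rfl
    exact hm (dvd_mul_right _ _)

theorem FC1_rho_GE {k : Type} [Field k] {n : ℕ} (hn : 0 < n) (f : LS k) (v : ℤ)
    (hf : f ∈ GE k v) : FC1_rho k n hn f ∈ GE k (n * v) := by
  intro m hm
  by_cases hd : (n : ℤ) ∣ m
  · obtain ⟨q, rfl⟩ := hd
    rw [FC1_cf_rho]
    apply hf
    by_contra hc
    have : (n : ℤ) * v ≤ n * q := mul_le_mul_of_nonneg_left (not_lt.1 hc) (by omega)
    omega
  · exact FC1_cf_rho_ne hn _ _ hd

/-- the components with respect to the basis `s^(-i)` -/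
def FC1_comp {k : Type} [Field k] (n : ℕ) (hn : 0 < n) (i : ℕ) (f : LS k) : LS k :=
  ofFun (fun m => cf f (n * m - i)) (min ((exists_lb f).choose) 0) fun m hm => by
    refine (exists_lb f).choose_spec _ ?_
    have h1 : m < 0 := lt_of_lt_of_le hm (min_le_right _ _)
    have h2 : m < (exists_lb f).choose := lt_of_lt_of_le hm (min_le_left _ _)
    have h3 : (n : ℤ) * m ≤ 1 * m := mul_le_mul_of_nonpos_right (by omega) (by omega)
    omega

theorem FC1_cf_comp {k : Type} [Field k] {n : ℕ} (hn : 0 < n) (i : ℕ) (f : LS k) (m : ℤ) :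
    cf (FC1_comp n hn i f) m = cf f (n * m - i) := rfl

theorem FC1_cf_sum {k : Type} [Field k] {n : ℕ} (hn : 0 < n) (g : Fin n → LS k) (i : Fin n)
    (m : ℤ) : cf (∑ l : Fin n, FC1_rho k n hn (g l) * mono (-(l : ℤ)) 1) (n * m - i) =
      cf (g i) m := by
  rw [cf_sum, Finset.sum_eq_single i]
  · rw [mul_comm, cf_mono_mul, one_mul, show (n : ℤ) * m - i - -(i : ℤ) = n * m by ring,
      FC1_cf_rho]
  · intro l _ hl
    rw [mul_comm, cf_mono_mul, one_mul]
    apply FC1_cf_rho_ne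
    rintro ⟨q, hq⟩
    apply hl
    have h1 := i.2
    have h2 := l.2
    have h3 : ((l : ℕ) : ℤ) - i = n * (q - m) := by
      rw [mul_sub]
      omega
    have h4 : q - m = 0 := by
      by_contra hc
      rcases lt_or_gt_of_ne hc with h | h
      · have : (n : ℤ) * (q - m) ≤ n * (-1) := mul_le_mul_of_nonneg_left (by omega) (by omega)
        omega
      · have : (n : ℤ) * 1 ≤ n * (q - m) := mul_le_mul_of_nonneg_left (by omega) (by omega)
        omega
    rw [h4, mul_zero] at h3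
    ext
    omega
  · intro h
    exact absurd (Finset.mem_univ i) h

theorem FC1_uniq {k : Type} [Field k] {n : ℕ} (hn : 0 < n) (g h : Fin n → LS k)
    (e : (∑ l : Fin n, FC1_rho k n hn (g l) * mono (-(l : ℤ)) 1) =
      ∑ l : Fin n, FC1_rho k n hn (h l) * mono (-(l : ℤ)) 1) : g = h := by
  funext i
  ext m
  rw [← FC1_cf_sum hn g i m, ← FC1_cf_sum hn h i m, e]

theorem FC1_dec {k : Type} [Field k] {n : ℕ} (hn : 0 < n) (f : LS k) :
    f = ∑ l : Fin n, FC1_rho k n hn (FC1_comp n hn l f) * mono (-(l : ℤ)) 1 := by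
  ext m
  have h0 : 0 ≤ (-m) % (n : ℤ) := Int.emod_nonneg _ (by omega)
  have h1 : (-m) % (n : ℤ) < n := Int.emod_lt_of_pos _ (by omega)
  obtain ⟨i, hi⟩ : ∃ i : Fin n, ((i : ℕ) : ℤ) = (-m) % (n : ℤ) :=
    ⟨⟨((-m) % (n : ℤ)).toNat, by omega⟩, by
      show (((-m) % (n : ℤ)).toNat : ℤ) = _
      omega⟩
  have h2 : m = n * (-((-m) / (n : ℤ))) - i := by
    have := Int.emod_add_mul_ediv (-m) n
    rw [hi, mul_neg]
    omega
  rw [h2, FC1_cf_sum hn (fun l : Fin n => FC1_comp n hn l f) i, FC1_cf_comp]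

theorem FC1_mulM {k : Type} [Field k] {n : ℕ} (hn : 0 < n)
    (X Y : Matrix (Fin n) (Fin n) (LS k)) (j : Fin n) :
    ∑ l : Fin n, FC1_rho k n hn ((X * Y) l j) * mono (-(l : ℤ)) 1 =
      ∑ i : Fin n, FC1_rho k n hn (Y i j) *
        ∑ l : Fin n, FC1_rho k n hn (X l i) * mono (-(l : ℤ)) 1 := by
  simp only [Matrix.mul_apply, map_sum, map_mul, Finset.sum_mul, Finset.mul_sum]
  rw [Finset.sum_comm]
  refine Finset.sum_congr rfl fun i _ => Finset.sum_congr rfl fun l _ => ?_
  ring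

theorem FC1_mulV {k : Type} [Field k] {n : ℕ} (hn : 0 < n)
    (X : Matrix (Fin n) (Fin n) (LS k)) (c : Fin n → LS k) :
    ∑ l : Fin n, FC1_rho k n hn (X.mulVec c l) * mono (-(l : ℤ)) 1 =
      ∑ i : Fin n, FC1_rho k n hn (c i) *
        ∑ l : Fin n, FC1_rho k n hn (X l i) * mono (-(l : ℤ)) 1 := by
  simp only [Matrix.mulVec, dotProduct, map_sum, map_mul, Finset.sum_mul, Finset.mul_sum]
  rw [Finset.sum_comm]
  refine Finset.sum_congr rfl fun i _ => Finset.sum_congr rfl fun l _ => ?_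
  ring

theorem FC1_lead {k : Type} [Field k] (g : LS k) (hg : g ≠ 0) :
    ∃ v : ℤ, g ∈ GE k v ∧ cf g v ≠ 0 :=
  ⟨HahnSeries.order (g : HahnSeries ℤ k),
    fun _ hn => HahnSeries.coeff_eq_zero_of_lt_order hn, HahnSeries.coeff_order_eq_zero.not.2 hg⟩

/-- independence by orders -/
theorem FC1_indep {k : Type} [Field k] {n : ℕ} (hn : 0 < n) (w : Fin n → LS k) (μ : Fin n → ℕ)
    (hμ : ∀ i, μ i % n = (i : ℕ)) (h1 : ∀ i, w i ∈ GE k (-(μ i : ℤ)))
    (h2 : ∀ i, cf (w i) (-(μ i : ℤ)) ≠ 0) (c : Fin n → LS k)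
    (hc : ∑ i, FC1_rho k n hn (c i) * w i = 0) : c = 0 := by
  by_contra hne
  have hv : ∀ i, ∃ v : ℤ, c i ≠ 0 → c i ∈ GE k v ∧ cf (c i) v ≠ 0 := by
    intro i
    by_cases h : c i = 0
    · exact ⟨0, fun h' => absurd h h'⟩
    · obtain ⟨v, hv⟩ := FC1_lead (c i) h
      exact ⟨v, fun _ => hv⟩
  choose v hv using hv
  have hS : (Finset.univ.filter fun i => c i ≠ 0).Nonempty := by
    rw [Finset.filter_nonempty_iff]
    by_contra hcon
    push Not at hcon
    exact hne (funext fun i => hcon i (Finset.mem_univ i))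
  obtain ⟨j, hj, hmin⟩ := Finset.exists_min_image _ (fun i => (n : ℤ) * v i - μ i) hS
  rw [Finset.mem_filter] at hj
  have hGE : ∀ i, c i ≠ 0 → FC1_rho k n hn (c i) * w i ∈ GE k ((n : ℤ) * v i - μ i) := by
    intro i hi
    have := GE_mul (FC1_rho_GE hn (c i) (v i) (hv i hi).1) (h1 i)
    rwa [← sub_eq_add_neg] at this
  have e := congrArg (fun z => cf z ((n : ℤ) * v j - μ j)) hc
  simp only [cf_sum, cf_zero] at e
  rw [Finset.sum_eq_single j] at e
  · have e2 := cf_mul_lead (FC1_rho_GE hn (c j) (v j) (hv j hj.2).1) (h1 j)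
    rw [← sub_eq_add_neg, e, FC1_cf_rho] at e2
    exact mul_ne_zero (hv j hj.2).2 (h2 j) e2.symm
  · intro i _ hij
    by_cases hi : c i = 0
    · rw [hi, map_zero, zero_mul, cf_zero]
    · apply hGE i hi
      have h3 := hmin i (Finset.mem_filter.2 ⟨Finset.mem_univ _, hi⟩)
      refine lt_of_le_of_ne h3 ?_
      intro h4
      apply hij
      have h5 : ((μ i : ℤ)) % n = (μ j : ℤ) % n := by
        have : (μ i : ℤ) = μ j + n * (v i - v j) := by
          rw [mul_sub]
          omega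
        rw [this, Int.add_mul_emod_self_left]
      have h6 : μ i % n = μ j % n := by exact_mod_cast h5
      rw [hμ, hμ] at h6
      exact Fin.ext h6
  · intro h
    exact absurd (Finset.mem_univ j) h

/-- evaluation of polynomials at `s^(-1)` -/
def FC1_ev (k : Type) [Field k] : Polynomial k →+* LS k :=
  Polynomial.eval₂RingHom (LS.C : k →+* LS k) (mono (-1) 1)

theorem FC1_cf_ev {k : Type} [Field k] (P : Polynomial k) (m : ℤ) (hm : 0 < m) :
    cf (FC1_ev k P) m = 0 := by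
  induction P using Polynomial.induction_on' with
  | add P Q hP hQ => rw [map_add, cf_add, hP, hQ, add_zero]
  | monomial i a =>
    have h1 : ∀ i : ℕ, (mono (-1) (1 : k)) ^ i = mono (-(i : ℤ)) 1 := by
      intro i
      induction i with
      | zero =>
        rw [pow_zero]
        show (1 : LS k) = mono 0 1
        rw [← C_eq_mono, map_one]
      | succ i ih =>
        rw [pow_succ, ih, mono_mul_mono, mul_one]
        congr 1
        push_cast
        ring
    show cf (Polynomial.eval₂ (LS.C : k →+* LS k) (mono (-1) 1) (Polynomial.monomial i a)) m = 0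
    rw [Polynomial.eval₂_monomial, h1, cf_C_mul, cf_mono, if_neg (by omega), mul_zero]

theorem FC1_ev_iota {k F : Type} [Field k] [Field F] [Algebra k F] {P₀ : Place k F}
    {ι : F →+* LS k} (hι : Lau P₀ ι) {x : F} {n : ℕ} (hn : 0 < n)
    (hx : ι x = mono (-(n : ℤ)) 1) (P : Polynomial k) :
    ι (Polynomial.aeval x P) = FC1_rho k n hn (FC1_ev k P) := by
  have : ι.comp (Polynomial.aeval x : Polynomial k →ₐ[k] F).toRingHom =
      (FC1_rho k n hn).comp (FC1_ev k) := by
    refine Polynomial.ringHom_ext (fun c => ?_) ?_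
    · show ι (Polynomial.aeval x (Polynomial.C c)) = FC1_rho k n hn (Polynomial.eval₂ _ _ _)
      rw [Polynomial.aeval_C, Polynomial.eval₂_C, FC1_rho_C, hι.const]
    · show ι (Polynomial.aeval x Polynomial.X) = FC1_rho k n hn (Polynomial.eval₂ _ _ _)
      rw [Polynomial.aeval_X, Polynomial.eval₂_X, FC1_rho_mono, hx, mul_neg_one]
  exact congrArg (fun r : Polynomial k →+* LS k => r P) this

theorem FC1 : FC1_stmt := by
  intro k F _ _ _ _ hF P₀ ι hι x n hn hnk hx hxι f hf
  have hord : P₀.ord x = -(n : ℤ) := by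
    have hx0 : x ≠ 0 := by
      rintro rfl
      rw [map_zero] at hxι
      have := congrArg (fun z => cf z (-(n : ℤ))) hxι
      simp only [cf_zero, cf_mono, if_true] at this
      exact one_ne_zero this.symm
    have h1 := hι.mem x hx0
    have h2 := hι.ne x hx0
    rw [hxι] at h1 h2
    rw [cf_mono] at h2
    by_contra hc
    rw [if_neg hc] at h2
    exact h2 rfl
  obtain ⟨u, μ, hu⟩ := aQA1 k F hF P₀ x n hn hx hord
  obtain ⟨A, hA, -⟩ := aQN0 k F P₀ x n u μ hu f hf
  let B : Matrix (Fin n) (Fin n) (LS k) := fun i j => FC1_comp n hn i (ι (u j))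
  let T : Matrix (Fin n) (Fin n) (LS k) := fun i j =>
    FC1_comp n hn i (ι f * mono (-((j : ℕ) : ℤ)) 1)
  let A' : Matrix (Fin n) (Fin n) (LS k) := fun i j => FC1_ev k (A i j)
  have hB : ∀ j, ι (u j) = ∑ l : Fin n, FC1_rho k n hn (B l j) * mono (-(l : ℤ)) 1 :=
    fun j => FC1_dec hn (ι (u j))
  have hT : ∀ j : Fin n, ι f * mono (-((j : ℕ) : ℤ)) 1 =
      ∑ l : Fin n, FC1_rho k n hn (T l j) * mono (-(l : ℤ)) 1 :=
    fun j => FC1_dec hn (ι f * mono (-((j : ℕ) : ℤ)) 1)
  have hA' : ∀ j, ι f * ι (u j) = ∑ i, FC1_rho k n hn (A' i j) * ι (u i) := by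
    intro j
    rw [← map_mul, hA j, map_sum]
    refine Finset.sum_congr rfl fun i _ => ?_
    rw [map_mul, FC1_ev_iota hι hn hxι]
  have hTB : T * B = B * A' := by
    ext1 i j
    have : (fun l => (T * B) l j) = fun l => (B * A') l j := by
      apply FC1_uniq hn
      show ∑ l : Fin n, FC1_rho k n hn ((T * B) l j) * mono (-(l : ℤ)) 1 =
        ∑ l : Fin n, FC1_rho k n hn ((B * A') l j) * mono (-(l : ℤ)) 1
      rw [FC1_mulM, FC1_mulM]
      simp only [← hB, ← hT]
      rw [← hA' j]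
      conv_rhs => rw [hB j, Finset.mul_sum]
      refine Finset.sum_congr rfl fun i _ => ?_
      ring
    exact congrFun this i
  have hdet : B.det ≠ 0 := by
    intro h0
    obtain ⟨c, hc0, hc⟩ := Matrix.exists_mulVec_eq_zero_iff.2 h0
    apply hc0
    refine FC1_indep hn (fun j => ι (u j)) μ hu.res ?_ ?_ c ?_
    · intro i
      have := hι.mem (u i) (hu.ne i)
      rwa [hu.ord i] at this
    · intro i
      have := hι.ne (u i) (hu.ne i)
      rwa [hu.ord i] at this
    · have := FC1_mulV hn B c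
      simp only [← hB] at this
      rw [← this, hc]
      refine Finset.sum_eq_zero fun l _ => ?_
      show FC1_rho k n hn 0 * _ = 0
      rw [map_zero, zero_mul]
  have htr : T.trace = A'.trace := by
    have hinv : B * B⁻¹ = 1 := Matrix.mul_nonsing_inv B (isUnit_iff_ne_zero.2 hdet)
    have hinv' : B⁻¹ * B = 1 := Matrix.nonsing_inv_mul B (isUnit_iff_ne_zero.2 hdet)
    calc T.trace = (T * B * B⁻¹).trace := by rw [Matrix.mul_assoc, hinv, Matrix.mul_one]
      _ = (B⁻¹ * (B * A')).trace := by rw [hTB, Matrix.trace_mul_comm]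
      _ = A'.trace := by rw [← Matrix.mul_assoc, hinv', Matrix.one_mul]
  have e1 : cf T.trace 1 = (n : k) * cf (ι f) n := by
    rw [Matrix.trace, cf_sum]
    have : ∀ i : Fin n, cf (T.diag i) 1 = cf (ι f) n := by
      intro i
      show cf (ι f * mono (-((i : ℕ) : ℤ)) 1) (n * 1 - (i : ℕ)) = _
      rw [mul_comm, cf_mono_mul, one_mul]
      congr 1
      ring
    rw [Finset.sum_congr rfl fun i _ => this i, Finset.sum_const, Finset.card_univ,
      Fintype.card_fin, nsmul_eq_mul]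
  have e2 : cf A'.trace 1 = 0 := by
    rw [Matrix.trace, cf_sum]
    exact Finset.sum_eq_zero fun i _ => FC1_cf_ev _ 1 one_pos
  rw [htr, e2] at e1
  exact (mul_eq_zero.1 e1.symm).resolve_left hnk

end

end AN
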