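import Pool.Agent.helper48.AN.SpecF

namespace AN

open scoped Classical
open Pool.Agent.helper53.AU

noncomputable section

theorem FT_lead {k : Type} [Field k] (g : LS k) (hg : g ≠ 0) :
    ∃ v : ℤ, g ∈ GE k v ∧ cf g v ≠ 0 :=
  ⟨HahnSeries.order (g : HahnSeries ℤ k),
    fun _ hn => HahnSeries.coeff_eq_zero_of_lt_order hn, HahnSeries.coeff_order_eq_zero.not.2 hg⟩

theorem FT_GE_iff {k : Type} [Field k] {y : LS k} {v : ℤ} (h1 : y ∈ GE k v) (h2 : cf y v ≠ 0)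
    (n : ℤ) : y ∈ GE k n ↔ n ≤ v := by
  constructor
  · intro h
    by_contra hc
    exact h2 (h v (by omega))
  · intro h
    exact GE_mono h h1

theorem FT_inv {k : Type} [Field k] {u : LS k} {v : ℤ} (h1 : u ∈ GE k v) (h2 : cf u v ≠ 0) :
    u⁻¹ ∈ GE k (-v) ∧ cf u⁻¹ (-v) ≠ 0 := by
  have hu : u ≠ 0 := by
    rintro rfl
    exact h2 (cf_zero _)
  obtain ⟨w, hw1, hw2⟩ := FT_lead u⁻¹ (inv_ne_zero hu)
  have e := cf_mul_lead h1 hw1
  rw [mul_inv_cancel₀ hu, cf_one] at e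
  have : v + w = 0 := by
    by_contra hc
    rw [if_neg hc] at e
    exact mul_ne_zero h2 hw2 e.symm
  have hw : w = -v := by omega
  rw [← hw]
  exact ⟨hw1, hw2⟩

/-- `v ↦ ι v * y` -/
def FT_L {k F : Type} [Field k] [Field F] [Algebra k F] {P₀ : Place k F} {ι : F →+* LS k}
    (hι : Lau P₀ ι) (y : LS k) : F →ₗ[k] LS k where
  toFun v := ι v * y
  map_add' a b := by rw [map_add, add_mul]
  map_smul' c v := by
    rw [Algebra.smul_def, map_mul, hι.const, mul_assoc, C_mul, RingHom.id_apply]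

/-- vector fields regular outside `P₀` -/
def FT_W {k F : Type} [Field k] [Field F] [Algebra k F] (P₀ : Place k F) (D : Derivation k F F) :
    Submodule k F where
  carrier := {v | ∀ P : Place k F, P ≠ P₀ → P.Ge (-P.ord (D P.unif)) v}
  zero_mem' := fun P _ => P.ge_zero _
  add_mem' := fun ha hb => fun P hP => (ha P hP).add (hb P hP)
  smul_mem' := fun c _ hf => fun P hP => (hf P hP).smul c

theorem FT (hFB : FB_stmt) (hFE : FE_stmt) (hFE0 : FE0_stmt) : FT_stmt := by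
  intro p _ k F _ _ _ _ _ hF g hg hgen P₀ ι hι γ a hK hA
  obtain ⟨D, hD⟩ := QK1 k F hF
  obtain ⟨u, hu1, hu2, hu⟩ := hFB k F hF P₀ ι hι D hD
  obtain ⟨⟨C, hC⟩, h0⟩ := hFE k F hF g hgen P₀ D hD
  have hu0 : u ≠ 0 := by
    rintro rfl
    exact hu2 (cf_zero _)
  obtain ⟨hi1, hi2⟩ := FT_inv hu1 hu2
  rw [neg_neg] at hi1 hi2
  have hL : ∀ v : F, v ≠ 0 → ∀ n : ℤ, FT_L hι u⁻¹ v ∈ GE k n ↔
      n ≤ P₀.ord v + P₀.ord (D P₀.unif) := by
    intro v hv n
    refine FT_GE_iff (GE_mul (hι.mem v hv) hi1) ?_ n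
    rw [cf_mul_lead (hι.mem v hv) hi1]
    exact mul_ne_zero (hι.ne v hv) hi2
  have hinj : Function.Injective (FT_L hι u⁻¹) := by
    intro v w hvw
    have h1 : ι v * u⁻¹ = ι w * u⁻¹ := hvw
    exact ι.injective (mul_right_cancel₀ (inv_ne_zero hu0) h1)
  have hVm : ∀ m : ℤ, (FT_W P₀ D).map (FT_L hι u⁻¹) ⊓ GE k (-m) =
      (vfF P₀ D m).map (FT_L hι u⁻¹) := by
    intro m
    ext x
    constructor
    · rintro ⟨⟨v, hv, rfl⟩, hx⟩
      refine ⟨v, ⟨hv, ?_⟩, rfl⟩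
      by_cases hv0 : v = 0
      · exact Or.inl hv0
      · have := (hL v hv0 (-m)).1 hx
        exact Or.inr (by omega)
    · rintro ⟨v, hv, rfl⟩
      refine ⟨⟨v, hv.1, rfl⟩, ?_⟩
      by_cases hv0 : v = 0
      · rw [hv0, map_zero]
        exact Submodule.zero_mem _
      · have h2 := hv.2.le hv0
        exact (hL v hv0 (-m)).2 (by omega)
  obtain ⟨ν, τ, n1, n2, n3, n4, -, -⟩ := hFE0 k ((FT_W P₀ D).map (FT_L hι u⁻¹)) 1 (3 * g - 3)
    (by
      have e : (1 : ℤ) - ((1 : ℕ) : ℤ) = -0 := by norm_num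
      rw [e, hVm 0, h0 hg, Submodule.map_bot])
    ⟨C, fun m hm => by
      have e := (hC m hm).2.2
      have e2 : Module.finrank k ((FT_W P₀ D).map (FT_L hι u⁻¹) ⊓ GE k (-(m : ℤ)) :
          Submodule k (LS k)) = Module.finrank k (vfF P₀ D (m : ℤ)) := by
        rw [hVm (m : ℤ)]
        exact (LinearEquiv.finrank_eq
          (Submodule.equivMapOfInjective (FT_L hι u⁻¹) hinj (vfF P₀ D (m : ℤ)))).symm
      rw [e2]
      omega⟩
  refine ⟨ν, τ, n1, fun i => n2 i, n4, ?_⟩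
  intro n r hn hnν hr
  obtain ⟨v, hv, hvτ⟩ := n3 n hn hnν
  have har : a r ∈ AA γ a := Submodule.subset_span ⟨r, hr, rfl⟩
  obtain ⟨f, hf, hfa⟩ := (hA (a r)).1 har
  rw [hA]
  refine ⟨v * D f, ?_, ?_⟩
  · intro P hP
    obtain ⟨c, hc⟩ := aQV1 k F hF P f (hf P hP)
    have h5 := (aQK5 k F hF D hD P P.unif P.unif_spec).2.2.1 1 (f - algebraMap k F c) hc
    rw [map_sub, Derivation.map_algebraMap, sub_zero] at h5
    have h6 := (hv P hP).mul h5
    exact h6.mono (by omega)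
  · rw [← hvτ, hfa, hu f]
    show ι v * u⁻¹ * (u * ι (D f)) = ι (v * D f)
    rw [map_mul, mul_assoc, inv_mul_cancel_left₀ hu0]

end

end AN
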