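import Pool.Agent.helper48.AN.SpecA

namespace AN

open scoped Classical

noncomputable section

theorem KA_cf_ite {R : Type} [CommRing R] (P : Prop) [Decidable P] (x : LS R) (n : ℤ) :
    cf (if P then 0 else x) n = if P then 0 else cf x n := by
  split_ifs <;> simp

theorem KA_rep {R : Type} [CommRing R] {g : ℕ} {γ : Fin g → ℕ} {a : ℕ → LS R} (h : IsK γ a)
    (α : LS R) (hα : α ∈ AA γ a) : ∃ M₀ : ℕ, ∀ M : ℕ, M₀ ≤ M →
      α = ∑ r ∈ Finset.range (M + 1), if Gp γ r then 0 else cf α (-(r : ℤ)) • a r := by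
  unfold AA at hα
  induction hα using Submodule.span_induction with
  | mem x hx =>
    obtain ⟨r0, hr0, rfl⟩ := hx
    refine ⟨r0, fun M hM => ?_⟩
    rw [Finset.sum_eq_single r0]
    · rw [if_neg hr0, h.coef r0 r0 hr0 hr0, if_pos rfl, one_smul]
    · intro r _ hr
      by_cases hg : Gp γ r
      · rw [if_pos hg]
      · rw [if_neg hg, h.coef r0 r hr0 hg, if_neg (Ne.symm hr), zero_smul]
    · intro hn
      exact absurd (Finset.mem_range.2 (by omega)) hn
  | zero =>
    refine ⟨0, fun M _ => ?_⟩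
    rw [Finset.sum_eq_zero]
    intro r _
    split_ifs
    · rfl
    · rw [cf_zero, zero_smul]
  | add x y _ _ hx hy =>
    obtain ⟨M1, h1⟩ := hx
    obtain ⟨M2, h2⟩ := hy
    refine ⟨max M1 M2, fun M hM => ?_⟩
    have e1 := h1 M (le_trans (le_max_left _ _) hM)
    have e2 := h2 M (le_trans (le_max_right _ _) hM)
    have e3 : (∑ r ∈ Finset.range (M + 1), if Gp γ r then 0 else cf (x + y) (-(r : ℤ)) • a r) =
        (∑ r ∈ Finset.range (M + 1), if Gp γ r then 0 else cf x (-(r : ℤ)) • a r) +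
        ∑ r ∈ Finset.range (M + 1), if Gp γ r then 0 else cf y (-(r : ℤ)) • a r := by
      rw [← Finset.sum_add_distrib]
      refine Finset.sum_congr rfl fun r _ => ?_
      split_ifs
      · rw [add_zero]
      · rw [cf_add, add_smul]
    rw [e3, ← e1, ← e2]
  | smul c x _ hx =>
    obtain ⟨M1, h1⟩ := hx
    refine ⟨M1, fun M hM => ?_⟩
    have e1 := h1 M hM
    have e3 : (∑ r ∈ Finset.range (M + 1), if Gp γ r then 0 else cf (c • x) (-(r : ℤ)) • a r) =
        c • (∑ r ∈ Finset.range (M + 1), if Gp γ r then 0 else cf x (-(r : ℤ)) • a r) := by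
      rw [Finset.smul_sum]
      refine Finset.sum_congr rfl fun r _ => ?_
      split_ifs
      · rw [smul_zero]
      · rw [cf_smul, mul_smul]
    rw [e3, ← e1]

theorem KA_fin {R : Type} [CommRing R] {g : ℕ} {γ : Fin g → ℕ} {a : ℕ → LS R} (h : IsK γ a)
    (α : LS R) (hα : α ∈ AA γ a) (M : ℕ)
    (hM : ∀ r : ℕ, M < r → ¬ Gp γ r → cf α (-(r : ℤ)) = 0) :
    α = ∑ r ∈ Finset.range (M + 1), if Gp γ r then 0 else cf α (-(r : ℤ)) • a r := by
  obtain ⟨M0, h0⟩ := KA_rep h α hα
  have e := h0 (max M M0) (le_max_right _ _)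
  have hsub : Finset.range (M + 1) ⊆ Finset.range (max M M0 + 1) := by
    intro r hr
    rw [Finset.mem_range] at hr ⊢
    have := le_max_left M M0
    omega
  have e2 := Finset.sum_subset hsub
    (f := fun r : ℕ => if Gp γ r then (0 : LS R) else cf α (-(r : ℤ)) • a r) (by
      intro r _ hr
      have hr' : M < r := by
        by_contra hc
        exact hr (Finset.mem_range.2 (by omega))
      show (if Gp γ r then (0 : LS R) else cf α (-(r : ℤ)) • a r) = 0
      by_cases hg : Gp γ r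
      · rw [if_pos hg]
      · rw [if_neg hg, hM r hr' hg, zero_smul])
  exact e.trans e2.symm

theorem KA_cf_gaps {R : Type} [CommRing R] {g : ℕ} {γ : Fin g → ℕ} (c : Fin g → R) (n : ℤ)
    (hn : ∀ i, n ≠ -(γ i : ℤ)) : cf (∑ i, mono (-(γ i : ℤ)) (c i)) n = 0 := by
  rw [cf_sum]
  refine Finset.sum_eq_zero fun i _ => ?_
  rw [cf_mono, if_neg (hn i)]

theorem KA_cf_gap {R : Type} [CommRing R] {g : ℕ} {γ : Fin g → ℕ} (hγ : Function.Injective γ)
    (c : Fin g → R) (j : Fin g) : cf (∑ i, mono (-(γ i : ℤ)) (c i)) (-(γ j : ℤ)) = c j := by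
  rw [cf_sum, Finset.sum_eq_single j]
  · rw [cf_mono, if_pos rfl]
  · intro i _ hi
    rw [cf_mono, if_neg]
    intro hc
    apply hi
    apply hγ
    omega
  · intro hn
    exact absurd (Finset.mem_univ j) hn

theorem KA : KA_stmt := by
  intro R _ g γ a h
  refine ⟨?_, ?_, fun α hα M hM => KA_fin h α hα M hM⟩
  · intro x
    obtain ⟨N, hN⟩ := exists_lb_nat x
    let α : LS R := ∑ r ∈ Finset.range (N + 1), if Gp γ r then 0 else cf x (-(r : ℤ)) • a r
    have hα : α ∈ AA γ a := by
      refine Submodule.sum_mem _ fun r _ => ?_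
      by_cases hg : Gp γ r
      · rw [if_pos hg]; exact Submodule.zero_mem _
      · rw [if_neg hg]
        exact Submodule.smul_mem _ _ (Submodule.subset_span ⟨r, hg, rfl⟩)
    have hy : ∀ r : ℕ, ¬ Gp γ r → cf (x - α) (-(r : ℤ)) = 0 := by
      intro r hr
      rw [cf_sub, sub_eq_zero]
      have e1 : cf α (-(r : ℤ)) = ∑ r' ∈ Finset.range (N + 1),
          if r' = r then cf x (-(r' : ℤ)) else 0 := by
        show cf (∑ r ∈ Finset.range (N + 1), if Gp γ r then 0 else cf x (-(r : ℤ)) • a r) _ = _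
        rw [cf_sum]
        refine Finset.sum_congr rfl fun r' _ => ?_
        rw [KA_cf_ite]
        by_cases hg : Gp γ r'
        · rw [if_pos hg, if_neg]
          rintro rfl
          exact hr hg
        · rw [if_neg hg, cf_smul, h.coef r' r hg hr]
          split_ifs <;> simp
      rw [e1, Finset.sum_ite_eq']
      by_cases hm : r ∈ Finset.range (N + 1)
      · rw [if_pos hm]
      · rw [if_neg hm]
        rw [Finset.mem_range] at hm
        exact hN _ (by omega)
    refine ⟨α, hα, fun i => cf (x - α) (-(γ i : ℤ)),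
      x - α - ∑ i, mono (-(γ i : ℤ)) (cf (x - α) (-(γ i : ℤ))), ?_, by ring⟩
    intro n hn
    rw [cf_sub, sub_eq_zero]
    obtain ⟨r, rfl⟩ : ∃ r : ℕ, n = -(r : ℤ) := ⟨(-n).toNat, by omega⟩
    by_cases hg : Gp γ r
    · obtain ⟨j, rfl⟩ := hg
      rw [KA_cf_gap h.inj (fun i => cf (x - α) (-(γ i : ℤ))) j]
    · rw [hy r hg, KA_cf_gaps]
      intro i hi
      exact hg ⟨i, by omega⟩
  · intro α hα c o ho he
    have h0 : ∀ r : ℕ, ¬ Gp γ r → cf α (-(r : ℤ)) = 0 := by
      intro r hr
      have e := congrArg (fun z => cf z (-(r : ℤ))) he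
      simp only [cf_add, cf_zero] at e
      rw [KA_cf_gaps c (-(r : ℤ)) (fun i hi => hr ⟨i, by omega⟩), ho (-(r : ℤ)) (by omega)] at e
      simpa using e
    have hα0 : α = 0 := by
      rw [KA_fin h α hα 0 (fun r _ hg => h0 r hg)]
      refine Finset.sum_eq_zero fun r _ => ?_
      by_cases hg : Gp γ r
      · rw [if_pos hg]
      · rw [if_neg hg, h0 r hg, zero_smul]
    have hc0 : c = 0 := by
      funext j
      have e := congrArg (fun z => cf z (-(γ j : ℤ))) he
      simp only [cf_add, cf_zero] at e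
      rw [KA_cf_gap h.inj c j, hα0, cf_zero, ho (-(γ j : ℤ)) (by omega)] at e
      simpa using e
    refine ⟨hα0, hc0, ?_⟩
    rw [hα0, hc0] at he
    have e4 : (∑ i : Fin g, mono (-(γ i : ℤ)) ((0 : Fin g → R) i)) = 0 :=
      Finset.sum_eq_zero fun i _ => mono_zero _
    rw [e4] at he
    simpa using he

end

end AN
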