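import Pool.Agent.helper48.AN.SpecA

namespace AN

open scoped Classical

noncomputable section

theorem KB (hKA : KA_stmt) : KB_stmt := by
  intro R _ g γ a h
  have hg0 : ¬ Gp γ 0 := by
    rintro ⟨i, hi⟩
    have := h.pos i
    omega
  have k1 : ∀ r, ¬ Gp γ r → a r ∈ AA γ a := fun r hr => Submodule.subset_span ⟨r, hr, rfl⟩
  have k1' : (1 : LS R) ∈ AA γ a := by
    rw [← h.one]
    exact k1 0 hg0
  have k2 : ∀ c : R, LS.C c ∈ AA γ a := by
    intro c
    have : LS.C c = c • (1 : LS R) := by rw [← C_mul, mul_one]
    rw [this]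
    exact Submodule.smul_mem _ _ k1'
  have k3 : ∀ f ∈ AA γ a, f ∈ PS R → ∃ c : R, f = LS.C c := by
    intro f hf hp
    refine ⟨cf f 0, ?_⟩
    have hm : f - LS.C (cf f 0) ∈ AA γ a := Submodule.sub_mem _ hf (k2 _)
    have ho : -(f - LS.C (cf f 0)) ∈ GE R 1 := by
      refine Submodule.neg_mem _ ?_
      intro n hn
      rw [cf_sub, cf_C]
      by_cases h0 : n = 0
      · rw [if_pos h0, h0, sub_self]
      · rw [if_neg h0, hp n (by omega), sub_zero]
    have := ((hKA R g γ a h).2.1 _ hm 0 _ ho (by
      have : (∑ i : Fin g, mono (-(γ i : ℤ)) ((0 : Fin g → R) i)) = 0 :=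
        Finset.sum_eq_zero fun i _ => mono_zero _
      rw [this]
      ring)).1
    exact sub_eq_zero.1 this
  have k4 : ∀ f ∈ AA γ a, ∀ h ∈ AA γ a, f * h ∈ AA γ a := by
    intro f hf
    have hf' := hf
    unfold AA at hf'
    induction hf' using Submodule.span_induction with
    | mem x hx =>
      obtain ⟨r, hr, rfl⟩ := hx
      intro k hk
      have hk' := hk
      unfold AA at hk'
      induction hk' using Submodule.span_induction with
      | mem y hy =>
        obtain ⟨r', hr', rfl⟩ := hy
        exact h.mul r r' hr hr'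
      | zero => rw [mul_zero]; exact Submodule.zero_mem _
      | add y z hy' hz' hy hz =>
        rw [mul_add]; exact Submodule.add_mem _ (hy hy') (hz hz')
      | smul c y hy' hy =>
        rw [← C_mul, mul_left_comm, C_mul]; exact Submodule.smul_mem _ _ (hy hy')
    | zero => intro k _; rw [zero_mul]; exact Submodule.zero_mem _
    | add y z hy' hz' hy hz =>
      intro k hk
      rw [add_mul]; exact Submodule.add_mem _ (hy hy' k hk) (hz hz' k hk)
    | smul c y hy' hy =>
      intro k hk
      rw [← C_mul, mul_assoc, C_mul]; exact Submodule.smul_mem _ _ (hy hy' k hk)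
  have k5 : ∀ f ∈ AA γ a, ∀ h ∈ AA γ a, res (f * dd h) = 0 := by
    intro f hf
    have hf' := hf
    unfold AA at hf'
    induction hf' using Submodule.span_induction with
    | mem x hx =>
      obtain ⟨r, hr, rfl⟩ := hx
      intro k hk
      have hk' := hk
      unfold AA at hk'
      induction hk' using Submodule.span_induction with
      | mem y hy =>
        obtain ⟨r', hr', rfl⟩ := hy
        exact h.res0 r r' hr hr'
      | zero => rw [map_zero, mul_zero, res_zero]
      | add y z hy' hz' hy hz =>
        rw [map_add, mul_add, res_add, hy hy', hz hz', add_zero]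
      | smul c y hy' hy =>
        rw [map_smul, ← C_mul, mul_left_comm, C_mul, res_smul, hy hy', mul_zero]
    | zero => intro k _; rw [zero_mul, res_zero]
    | add y z hy' hz' hy hz =>
      intro k hk
      rw [add_mul, res_add, hy hy' k hk, hz hz' k hk, add_zero]
    | smul c y hy' hy =>
      intro k hk
      rw [← C_mul, mul_assoc, C_mul, res_smul, hy hy' k hk, mul_zero]
  have k6 : ∀ f ∈ AA γ a, dd f ∈ OmA γ a := fun f hf =>
    Submodule.subset_span ⟨1, k1', f, hf, (one_mul _).symm⟩
  have k7 : ∀ f ∈ AA γ a, ∀ ω ∈ OmA γ a, f * ω ∈ OmA γ a := by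
    intro f hf ω hω
    unfold OmA at hω
    induction hω using Submodule.span_induction with
    | mem x hx =>
      obtain ⟨u, hu, v, hv, rfl⟩ := hx
      exact Submodule.subset_span ⟨f * u, k4 f hf u hu, v, hv, by ring⟩
    | zero => rw [mul_zero]; exact Submodule.zero_mem _
    | add y z _ _ hy hz => rw [mul_add]; exact Submodule.add_mem _ hy hz
    | smul c y _ hy =>
      rw [← C_mul, mul_left_comm, C_mul]; exact Submodule.smul_mem _ _ hy
  have k8 : ∀ ω ∈ OmA γ a, res ω = 0 := by
    intro ω hω
    unfold OmA at hω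
    induction hω using Submodule.span_induction with
    | mem x hx =>
      obtain ⟨u, hu, v, hv, rfl⟩ := hx
      exact k5 u hu v hv
    | zero => exact res_zero
    | add y z _ _ hy hz => rw [res_add, hy, hz, add_zero]
    | smul c y _ hy => rw [res_smul, hy, mul_zero]
  exact ⟨k1, k2, k3, k4, k5, k6, k7, k8⟩

end

end AN
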