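import Pool.Agent.helper48.AN.SpecZ

namespace AN

open scoped Classical
open Pool.Agent.helper53.AU

noncomputable section

theorem KF (hKA : KA_stmt) (hKD : KD_stmt) : KF_stmt := by
  intro R _ g γ a h x hx
  obtain ⟨α, hα, c, o, ho, rfl⟩ := (hKA R g γ a h).1 x
  obtain ⟨d1, d2, d3, -, d5⟩ := hKD R g γ a h
  have hc : ∀ i, c i = 0 := by
    intro i
    have e := hx _ (d1 i)
    rw [add_mul, add_mul, res_add, res_add, d5 _ (Or.inr ⟨i, rfl⟩) α hα, zero_add] at e
    have e2 : res (o * om γ a ((γ i : ℤ) - 1)) = 0 := by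
      have := GE_mul ho (d2 i)
      exact this (-1) (by norm_num)
    rw [e2, add_zero, Finset.sum_mul, res_sum] at e
    have e3 : ∀ j, res (mono (-(γ j : ℤ)) (c j) * om γ a ((γ i : ℤ) - 1)) =
        c j * if i = j then 1 else 0 := by
      intro j
      have : mono (-(γ j : ℤ)) (c j) = c j • mono (-(γ j : ℤ)) (1 : R) := by
        rw [smul_mono, mul_one]
      rw [this, ← C_mul, mul_assoc, C_mul, res_smul, d3]
    rw [Finset.sum_congr rfl fun j _ => e3 j] at e
    simpa using e
  have hs : (∑ i, mono (-(γ i : ℤ)) (c i)) = 0 :=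
    Finset.sum_eq_zero fun i _ => by rw [hc i, mono_zero]
  rw [hs, add_zero] at hx ⊢
  have ho0 : o = 0 := by
    ext m
    rw [cf_zero]
    by_cases hm : m < 1
    · exact ho m hm
    · have hn : (-1 - m) ≤ -2 := by omega
      have e := hx _ (h.gen (-1 - m) (Or.inl hn))
      rw [add_mul, res_add, d5 _ (Or.inl hn) α hα, zero_add] at e
      have e2 : om γ a (-1 - m) = mono (-1 - m) 1 + (om γ a (-1 - m) - mono (-1 - m) 1) := by ring
      have e3 : om γ a (-1 - m) - mono (-1 - m) 1 ∈ GE R (-1) := by
        intro q hq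
        rw [cf_sub, cf_mono]
        unfold om
        rw [cf_ofFun]
        by_cases hqm : q = -1 - m
        · rw [if_pos hqm, if_pos hqm, sub_self]
        · rw [if_neg hqm, if_neg hqm, if_neg (by omega), sub_zero]
      rw [e2, mul_add, res_add] at e
      have e4 : res (o * (om γ a (-1 - m) - mono (-1 - m) 1)) = 0 := by
        have := GE_mul ho e3
        exact this (-1) (by norm_num)
      rw [e4, add_zero, mul_comm] at e
      unfold res at e
      rw [cf_mono_mul, one_mul] at e
      have : (-1 : ℤ) - (-1 - m) = m := by ring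
      rwa [this] at e
  rw [ho0, add_zero]
  exact hα

end

end AN
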