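import Pool.Agent.helper48.AN.SpecP

/-!
# an:PF. The ranks of the iterates of a `p`-linear map are stationary
-/

set_option autoImplicit false

namespace AN

open scoped Classical

theorem PF_frM_eq (p : ℕ) [Fact p.Prime] {K : Type} [Field K] [CharP K p] {m n : Type}
    (M : Matrix m n K) : frM p M = M.map (frobenius K p) := by
  ext i j
  rfl

theorem PF_frM_mul (p : ℕ) [Fact p.Prime] {K : Type} [Field K] [CharP K p] {g : ℕ}
    (M N : Matrix (Fin g) (Fin g) K) : frM p (M * N) = frM p M * frM p N := by
  rw [PF_frM_eq, PF_frM_eq, PF_frM_eq, Matrix.map_mul]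

theorem PF_right (p : ℕ) [Fact p.Prime] {K : Type} [Field K] [CharP K p] {g : ℕ}
    (H : Matrix (Fin g) (Fin g) K) (n : ℕ) :
    ∃ X : Matrix (Fin g) (Fin g) K, MN p H (n + 1) = MN p H n * X := by
  induction n with
  | zero =>
    refine ⟨H, ?_⟩
    show H * frM p (1 : Matrix (Fin g) (Fin g) K) = 1 * H
    rw [PF_frM_eq, Matrix.map_one _ (map_zero _) (map_one _), mul_one, one_mul]
  | succ n ih =>
    obtain ⟨X, hX⟩ := ih
    refine ⟨frM p X, ?_⟩
    show H * frM p (MN p H (n + 1)) = (H * frM p (MN p H n)) * frM p X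
    rw [hX, PF_frM_mul, mul_assoc]

theorem PF_factor {K : Type} [Field K] {g : ℕ} (A B : Matrix (Fin g) (Fin g) K)
    (h : LinearMap.range A.mulVecLin ≤ LinearMap.range B.mulVecLin) :
    ∃ Y : Matrix (Fin g) (Fin g) K, A = B * Y := by
  have h1 : ∀ j : Fin g, ∃ y : Fin g → K, B.mulVec y = A.mulVec (Pi.single j 1) := by
    intro j
    have h2 : A.mulVecLin (Pi.single j 1) ∈ LinearMap.range B.mulVecLin :=
      h (LinearMap.mem_range_self _ _)
    obtain ⟨y, hy⟩ := h2
    exact ⟨y, hy⟩
  choose y hy using h1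
  refine ⟨Matrix.of fun i j => y j i, ?_⟩
  ext i j
  have h3 := congrFun (hy j) i
  rw [Matrix.mulVec_single_one] at h3
  rw [Matrix.mul_apply]
  exact h3.symm

theorem PF : PF_stmt := by
  intro p _ K _ _ g H
  have hle : ∀ n, (MN p H (n + 1)).rank ≤ (MN p H n).rank := by
    intro n
    obtain ⟨X, hX⟩ := PF_right p H n
    rw [hX]
    exact Matrix.rank_mul_le_left _ _
  refine ⟨hle, ?_⟩
  -- once stationary, always stationary
  have hstep : ∀ n, (∃ Y, MN p H n = MN p H (n + 1) * Y) →
      ∃ Y, MN p H (n + 1) = MN p H (n + 2) * Y := by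
    rintro n ⟨Y, hY⟩
    refine ⟨frM p Y, ?_⟩
    show H * frM p (MN p H n) = (H * frM p (MN p H (n + 1))) * frM p Y
    rw [mul_assoc, ← PF_frM_mul, ← hY]
  have hrank : ∀ n, (∃ Y, MN p H n = MN p H (n + 1) * Y) →
      (MN p H (n + 1)).rank = (MN p H n).rank := by
    rintro n ⟨Y, hY⟩
    refine le_antisymm (hle n) ?_
    conv_lhs => rw [hY]
    exact Matrix.rank_mul_le_left _ _
  have hconv : ∀ n, (MN p H (n + 1)).rank = (MN p H n).rank →
      ∃ Y, MN p H n = MN p H (n + 1) * Y := by
    intro n hn
    apply PF_factor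
    obtain ⟨X, hX⟩ := PF_right p H n
    have hsub : LinearMap.range (MN p H (n + 1)).mulVecLin ≤
        LinearMap.range (MN p H n).mulVecLin := by
      rw [hX, Matrix.mulVecLin_mul]
      exact LinearMap.range_comp_le_range _ _
    have heq := Submodule.eq_of_le_of_finrank_eq hsub hn
    exact heq.symm.le
  -- there is a stationary place
  have hex : ∃ n ≤ g, ∃ Y, MN p H n = MN p H (n + 1) * Y := by
    by_contra hcon
    push Not at hcon
    have hlt : ∀ n ≤ g, (MN p H (n + 1)).rank < (MN p H n).rank := by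
      intro n hn
      refine lt_of_le_of_ne (hle n) fun h => ?_
      obtain ⟨Y, hY⟩ := hconv n h
      exact hcon n hn Y hY
    have hsum : ∀ n ≤ g + 1, (MN p H n).rank + n ≤ g := by
      intro n
      induction n with
      | zero =>
        intro _
        have := Matrix.rank_le_width (MN p H 0)
        omega
      | succ n ih =>
        intro hn
        have h1 := ih (by omega)
        have h2 := hlt n (by omega)
        omega
    have := hsum (g + 1) le_rfl
    omega
  obtain ⟨n₀, hn₀, hY₀⟩ := hex
  have hall : ∀ n, n₀ ≤ n → ∃ Y, MN p H n = MN p H (n + 1) * Y := by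
    intro n hn
    induction n, hn using Nat.le_induction with
    | base => exact hY₀
    | succ n _ ih => exact hstep n ih
  intro n hn
  induction n, hn using Nat.le_induction with
  | base => rfl
  | succ n hn ih => rw [hrank n (hall n (hn₀.trans hn)), ih]

end AN

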