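import Pool.Agent.helper48.AN.SpecP

namespace AN

open scoped Classical

noncomputable section

attribute [local instance] FractionRing.liftAlgebra in
theorem PN_fin (A R : Type) [CommRing A] [IsDomain A] [CommRing R] [IsDomain R] (φ : A →+* R)
    (hinj : Function.Injective φ) (hfin : φ.Finite) :
    ∃ _ : Algebra (FractionRing A) (FractionRing R),
      FiniteDimensional (FractionRing A) (FractionRing R) := by
  let _ : Algebra A R := φ.toAlgebra
  have : Module.Finite A R := hfin
  have : FaithfulSMul A R := (faithfulSMul_iff_algebraMap_injective A R).2 hinj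
  exact ⟨inferInstance, inferInstance⟩

/-- the linear map from derivations to their values on the variables -/
def PN_L {k K : Type} [Field k] [Field K] {N : ℕ} (ψ : BB k N →+* K) :
    Derivation ℤ K K →ₗ[K] (Fin N → K) where
  toFun D i := D (ψ (MvPowerSeries.X i))
  map_add' _ _ := rfl
  map_smul' _ _ := rfl

theorem PN_core (h4 : PM4_stmt) (p : ℕ) [Fact p.Prime] (k : Type) [Field k] [IsAlgClosed k]
    [CharP k p] (N n : ℕ) (K : Type) [Field K] [CharP K p] (ψ : BB k N →+* K)
    (hfrac : ∀ x : K, ∃ a b, ψ b ≠ 0 ∧ x = ψ a / ψ b)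
    (hD : ∃ D : Fin n → Derivation ℤ K K, LinearIndependent K D) :
    ∃ S : Submodule K (Fin N → K), n ≤ Module.finrank K S ∧
      ∀ d ∈ S, ∃ D : Derivation ℤ K K, ∀ b : BB k N,
        D (ψ b) = ∑ i, d i * ψ (MvPowerSeries.pderiv k i b) := by
  obtain ⟨D, hD⟩ := hD
  have hLinj : LinearMap.ker (PN_L ψ) = ⊥ := by
    rw [LinearMap.ker_eq_bot']
    intro E hE
    have hE0 : ∀ b, E (ψ b) = 0 := by
      intro b
      rw [h4 p k N K ψ E b]
      refine Finset.sum_eq_zero fun i _ => ?_
      have : E (ψ (MvPowerSeries.X i)) = 0 := congrFun hE i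
      rw [this, zero_mul]
    refine Derivation.ext fun x => ?_
    obtain ⟨a, b, hne, rfl⟩ := hfrac x
    have ha : E (ψ a) = 0 := hE0 a
    have hb' : E (ψ b) = 0 := hE0 b
    show E (ψ a / ψ b) = 0
    generalize ψ a = u at *
    generalize ψ b = v at *
    have e2 : E (u / v * v) = 0 := by rw [div_mul_cancel₀ _ hne, ha]
    rw [Derivation.leibniz, hb', smul_zero, zero_add, smul_eq_mul] at e2
    exact (mul_eq_zero.1 e2).resolve_left hne
  refine ⟨LinearMap.range (PN_L ψ), ?_, ?_⟩
  · have hli : LinearIndependent K fun i : Fin n =>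
        (⟨PN_L ψ (D i), ⟨D i, rfl⟩⟩ : LinearMap.range (PN_L ψ)) := by
      have h5 : LinearIndependent K (fun i : Fin n => PN_L ψ (D i)) := hD.map' (PN_L ψ) hLinj
      exact LinearIndependent.of_comp (LinearMap.range (PN_L ψ)).subtype h5
    have := hli.fintype_card_le_finrank
    rwa [Fintype.card_fin] at this
  · rintro d ⟨E, rfl⟩
    exact ⟨E, fun b => h4 p k N K ψ E b⟩

theorem PN (h1 : PM1_stmt) (h2 : PM2_stmt) (h3 : PM3_stmt) (h4 : PM4_stmt) : PN_stmt := by
  intro p _ k _ _ _ N n q hq hC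
  obtain ⟨φ, hinj, hfin⟩ := hC
  have : IsDomain (BB k N ⧸ q) := Ideal.Quotient.isDomain q
  have : IsDomain (BB k n) := NoZeroDivisors.to_isDomain _
  let K : Type := FractionRing (BB k N ⧸ q)
  let ψ : BB k N →+* K := (algebraMap (BB k N ⧸ q) K).comp (Ideal.Quotient.mk q)
  have hψi : Function.Injective (algebraMap (BB k N ⧸ q) K) :=
    IsFractionRing.injective (BB k N ⧸ q) K
  have : CharP K p := by
    refine charP_of_injective_ringHom (f := ψ.comp (MvPowerSeries.C (σ := Fin N) (R := k))) ?_ p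
    exact RingHom.injective _
  have : CharP (FractionRing (BB k n)) p := by
    refine charP_of_injective_ringHom (f := (algebraMap (BB k n) (FractionRing (BB k n))).comp
      (MvPowerSeries.C (σ := Fin n) (R := k))) ?_ p
    exact RingHom.injective _
  obtain ⟨alg, hfd⟩ := PN_fin (BB k n) (BB k N ⧸ q) φ.toRingHom hinj hfin
  have e1 : Module.finrank (frobenius K p).fieldRange K = p ^ n :=
    (h2 p (FractionRing (BB k n)) K hfd).trans (h3 p k n (FractionRing (BB k n)))
  have hker : RingHom.ker ψ = q := by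
    ext x
    rw [RingHom.mem_ker]
    show algebraMap (BB k N ⧸ q) K (Ideal.Quotient.mk q x) = 0 ↔ _
    rw [map_eq_zero_iff _ hψi, Ideal.Quotient.eq_zero_iff_mem]
  have hfrac : ∀ x : K, ∃ a b, ψ b ≠ 0 ∧ x = ψ a / ψ b := by
    intro x
    obtain ⟨a, b, hb, rfl⟩ := IsFractionRing.div_surjective (BB k N ⧸ q) x
    obtain ⟨a, rfl⟩ := Ideal.Quotient.mk_surjective a
    obtain ⟨b, rfl⟩ := Ideal.Quotient.mk_surjective b
    exact ⟨a, b, (map_ne_zero_iff _ hψi).2 (nonZeroDivisors.ne_zero hb), rfl⟩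
  obtain ⟨S, hS1, hS2⟩ := PN_core h4 p k N n K ψ hfrac (h1 p K n e1)
  exact ⟨K, inferInstance, inferInstance, ψ, S, hker, hS1, hS2⟩

end

end AN
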