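import Pool.Agent.helper48.AN.SpecZ

namespace AN

open scoped Classical
open Pool.Agent.helper53.AU

noncomputable section

theorem ZA1 (hKB : KB_stmt) : ZA1_stmt := by
  intro K _ g γ a h x
  obtain ⟨k1, k2, k3, k4, -⟩ := hKB K g γ a h
  have one : (1 : LS K) ∈ AA γ a := by
    have := k2 1
    rwa [map_one] at this
  constructor
  · intro hx
    unfold EF at hx
    induction hx using IntermediateField.adjoin_induction with
    | mem x hx => exact ⟨x, hx, 1, one, one_ne_zero, mul_one x⟩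
    | algebraMap c =>
      exact ⟨LS.C c, k2 c, 1, one, one_ne_zero, mul_one _⟩
    | add x y _ _ hx hy =>
      obtain ⟨α, hα, β, hβ, hβ0, e⟩ := hx
      obtain ⟨α', hα', β', hβ', hβ0', e'⟩ := hy
      refine ⟨α * β' + α' * β, Submodule.add_mem _ (k4 _ hα _ hβ') (k4 _ hα' _ hβ), β * β',
        k4 _ hβ _ hβ', mul_ne_zero hβ0 hβ0', ?_⟩
      rw [← e, ← e']
      ring
    | inv x _ hx =>
      obtain ⟨α, hα, β, hβ, hβ0, e⟩ := hx
      by_cases hx0 : x = 0
      · subst hx0
        exact ⟨0, Submodule.zero_mem _, 1, one, one_ne_zero, by rw [inv_zero, zero_mul]⟩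
      · refine ⟨β, hβ, α, hα, ?_, ?_⟩
        · rw [← e]
          exact mul_ne_zero hx0 hβ0
        · rw [← e, inv_mul_cancel_left₀ hx0]
    | mul x y _ _ hx hy =>
      obtain ⟨α, hα, β, hβ, hβ0, e⟩ := hx
      obtain ⟨α', hα', β', hβ', hβ0', e'⟩ := hy
      refine ⟨α * α', k4 _ hα _ hα', β * β', k4 _ hβ _ hβ', mul_ne_zero hβ0 hβ0', ?_⟩
      rw [← e, ← e']
      ring
  · rintro ⟨α, hα, β, hβ, hβ0, e⟩
    have : x = α / β := by
      rw [eq_div_iff hβ0, e]
    rw [this]
    unfold EF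
    exact div_mem (IntermediateField.subset_adjoin K _ hα)
      (IntermediateField.subset_adjoin K _ hβ)

end

end AN
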