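import Pool.Agent.helper48.AN.SpecZ

namespace AN

open scoped Classical
open Pool.Agent.helper53.AU

noncomputable section

theorem ZD : ZD_stmt := by
  intro k F _ _ _ _ hF
  by_contra hne
  have : IsEmpty (Place k F) := not_nonempty_iff.1 hne
  obtain ⟨x, hx, hfd⟩ := hF
  have h := (aQZ3 k F ⟨x, hx, hfd⟩ x hx).1
  rw [finsum_of_isEmpty] at h
  have h2 : 0 < Module.finrank (IntermediateField.adjoin k ({x} : Set F)) F :=
    Module.finrank_pos
  have h3 : degx k x = Module.finrank (IntermediateField.adjoin k ({x} : Set F)) F := rfl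
  omega

end

end AN
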